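import Pool.Agent.Work.MP_a8fbd7_nt.OX.CW.All

/-!
MP_a8fbd7_nt (prime counts in Oppermann intervals): the two asymptotic formulas hold on average over every window
`N < n ≤ N + H` with `N^(3/20) ≤ H ≤ N`, for each half separately.
-/

set_option autoImplicit false

namespace Pool.Agent.Results.MP_a8fbd7_nt.HalvesShortAverages

/-- For every `δ > 0` there is `N0` such that for all integers `N ≥ N0` and `H` with `N^(3/20) ≤ H ≤ N`: the sum over
`N < n ≤ N + H` of the number `A(n)` of primes in `[n² - n, n²]` differs from `∑ n / (2 log n)` by at most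
`δ ∑ n / (2 log n)`, and the same holds for the number `B(n)` of primes in `[n², n² + n]`. -/
theorem result : ∀ δ : ℝ, 0 < δ → ∃ N0 : ℕ, ∀ N H : ℕ, N0 ≤ N → (N : ℝ) ^ (3 / 20 : ℝ) ≤ H → H ≤ N →
    |(∑ n ∈ Finset.Ioc N (N + H), (((Finset.Icc (n ^ 2 - n) (n ^ 2)).filter Nat.Prime).card : ℝ)) -
        ∑ n ∈ Finset.Ioc N (N + H), (n : ℝ) / (2 * Real.log (n : ℝ))| ≤
      δ * ∑ n ∈ Finset.Ioc N (N + H), (n : ℝ) / (2 * Real.log (n : ℝ)) ∧
    |(∑ n ∈ Finset.Ioc N (N + H), (((Finset.Icc (n ^ 2) (n ^ 2 + n)).filter Nat.Prime).card : ℝ)) -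
        ∑ n ∈ Finset.Ioc N (N + H), (n : ℝ) / (2 * Real.log (n : ℝ))| ≤
      δ * ∑ n ∈ Finset.Ioc N (N + H), (n : ℝ) / (2 * Real.log (n : ℝ)) := by
  intro δ hδ
  obtain ⟨N0, h⟩ := Pool.Agent.Work.MP_a8fbd7_nt.OX.CW.main δ hδ
  refine ⟨N0, fun N H hN hH1 hH2 => ?_⟩
  obtain ⟨hA, hB⟩ := h N H hN hH1 hH2
  rw [Finset.sum_sub_distrib] at hA hB
  exact ⟨hA, hB⟩

end Pool.Agent.Results.MP_a8fbd7_nt.HalvesShortAverages
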