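import Pool.Agent.Work.MP_a8fbd7_nt.OU.Uni

/-!
# MP_a8fbd7_nt: Oppermann intervals, almost all integers, all subintervals

Outside a set of integers with at most `N ^ (39 / 200)` elements up to `N` every subinterval of
`[n ^ 2 - n, n ^ 2 + n]` contains the expected number of primes; in particular both asymptotic
formulas of the question hold.  The statement uses no definition of ours.
-/

set_option autoImplicit false

namespace Pool.Agent.Results.MP_a8fbd7_nt.OppermannAlmostAll

/-- There is a set `E` of natural numbers, with at most `N ^ (39 / 200)` elements in `[1, N]` for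
every `N`, such that for every `ε > 0` and all sufficiently large `n` outside `E` the number of primes
in every interval `[a, b]` contained in `[n ^ 2 - n, n ^ 2 + n]` differs from
`(b - a) / (2 log n)` by at most `ε n / log n`. -/
theorem result :
    ∃ E : Set ℕ, (∀ N : ℕ, ((E ∩ Set.Icc 1 N).ncard : ℝ) ≤ (N : ℝ) ^ (39 / 200 : ℝ)) ∧
      ∀ ε : ℝ, 0 < ε → ∃ n₀ : ℕ, ∀ n : ℕ, n₀ ≤ n → n ∉ E →
        ∀ a b : ℕ, n ^ 2 - n ≤ a → a ≤ b → b ≤ n ^ 2 + n →
          |(((Finset.Icc a b).filter Nat.Prime).card : ℝ) - ((b : ℝ) - a) / (2 * Real.log n)| ≤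
            ε * ((n : ℝ) / Real.log n) :=
  Pool.Agent.Work.MP_a8fbd7_nt.OU.uniform

end Pool.Agent.Results.MP_a8fbd7_nt.OppermannAlmostAll
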