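import Pool.Agent.Work.MP_a8fbd7_nt.EX.ASM2.All
import Pool.Agent.Work.MP_a8fbd7_nt.EX.ASM2.Fin

/-!
# MP_a8fbd7_nt: many primes in both Oppermann intervals, outside a very sparse set

Both Oppermann intervals contain at least `n / (250 log n)` primes for all large integers `n` outside a
set with at most `N ^ (21 / 200)` elements up to `N`.  The statement uses no definition of ours.
-/

set_option autoImplicit false

namespace Pool.Agent.Results.MP_a8fbd7_nt.OppermannExistence

/-- There is a set `E` of natural numbers, with at most `N ^ (21 / 200)` elements in `[1, N]` for every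
`N`, and a natural number `n0` such that for every `n ≥ n0` which is not in `E` both `[n ^ 2 - n, n ^ 2]`
and `[n ^ 2, n ^ 2 + n]` contain at least `n / (250 log n)` primes. -/
theorem result :
    ∃ E : Set ℕ, (∀ N : ℕ, ((E ∩ Set.Icc 1 N).ncard : ℝ) ≤ (N : ℝ) ^ (21 / 200 : ℝ)) ∧
      ∃ n0 : ℕ, ∀ n : ℕ, n0 ≤ n → n ∉ E →
        (n : ℝ) / (250 * Real.log n) ≤ (((Finset.Icc (n ^ 2 - n) (n ^ 2)).filter Nat.Prime).card : ℝ) ∧
        (n : ℝ) / (250 * Real.log n) ≤ (((Finset.Icc (n ^ 2) (n ^ 2 + n)).filter Nat.Prime).card : ℝ) :=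
  Pool.Agent.Work.MP_a8fbd7_nt.EX.ASM2.fin_of_YCo Pool.Agent.Work.MP_a8fbd7_nt.EX.ASM2.all_YCo

end Pool.Agent.Results.MP_a8fbd7_nt.OppermannExistence
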