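import Pool.Agent.Work.MP_a8fbd7_nt.PAR.RP.All

/-!
# MP_a8fbd7_nt: both parities, without small prime factors, in every interval of length `n / (log n)^(1/100)` between `n² - n` and `n² + n`

For every `w` and every large `n`, every interval of integers `[a, b] ⊆ [n² - n, n² + n]` of length at least `n / (log n)^(1/100)` contains
at least `n exp(-2 (log n)^(99/100)) = n^(1 - o(1))` integers with all prime factors `> w` and with an even number of prime factors, and at
least as many with all prime factors `> w` and with an odd number of prime factors (prime factors are counted with multiplicity: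
`ArithmeticFunction.cardFactors`, usually called `Ω`).  In particular this holds for the two intervals `[n² - n, n²]` and `[n², n² + n]` of
the problem and for all their parts of that length, for every large `n`.
-/

namespace Pool.Agent.Results.MP_a8fbd7_nt.ParityBelowRoot

open Classical in
/-- For every `w` there is `n0` such that for all `n ≥ n0` and all integers `a`, `b` with `n² - n ≤ a`, `b ≤ n² + n` and
`a + n / (log n)^(1/100) ≤ b`, the interval `[a, b]` contains at least `n exp(-2 (log n)^(99/100))` integers `m` all of whose prime factors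
are `> w` with `Ω(m)` even, and at least as many with `Ω(m)` odd. -/
theorem result : ∀ w : ℕ, ∃ n0 : ℕ, ∀ n a b : ℕ, n0 ≤ n → n ^ 2 - n ≤ a → b ≤ n ^ 2 + n →
    (a : ℝ) + n / Real.log n ^ (1 / 100 : ℝ) ≤ b →
    (n : ℝ) * Real.exp (-(2 * Real.log n ^ (99 / 100 : ℝ))) ≤
      (((Finset.Icc a b).filter fun m => (∀ p : ℕ, p.Prime → p ∣ m → w < p) ∧
        Even (ArithmeticFunction.cardFactors m)).card : ℝ) ∧
    (n : ℝ) * Real.exp (-(2 * Real.log n ^ (99 / 100 : ℝ))) ≤
      (((Finset.Icc a b).filter fun m => (∀ p : ℕ, p.Prime → p ∣ m → w < p) ∧
        Odd (ArithmeticFunction.cardFactors m)).card : ℝ) :=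
  Pool.Agent.Work.MP_a8fbd7_nt.PAR.RP.oppRP

end Pool.Agent.Results.MP_a8fbd7_nt.ParityBelowRoot
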